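import Pool.Agent.H.MP_11a8c1_an.B

namespace Pool.Agent.Results.MP_11a8c1_an.No

open Pool.Agent.Lib.helper23.BL Pool.Agent.H.MP_11a8c1_an

theorem result : ∃ (X Y : Type) (_ : BanachLattice X) (_ : BanachLattice Y),
    Projective X ∧ Projective Y ∧ (∃ e : X, IsTopUnit e) ∧ (∃ e : Y, IsTopUnit e) ∧
    (∃ (P : Type) (_ : BanachLattice P) (τ : X → Y → P), IsFremlin τ) ∧
    ∀ (P : Type) [BanachLattice P] (τ : X → Y → P), IsFremlin τ → ¬ Projective P := by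
  obtain ⟨ρ, r1, r2, r3⟩ := cube (ℕ → ℕ)
  obtain ⟨ρ', s1, s2, s3⟩ := cube ℕ
  obtain ⟨π, τ, t1, t2, t3⟩ := fremlin ρ ρ' (r2 none) (s2 none)
  refine ⟨Renorm ρ, Renorm ρ', inferInstance, inferInstance, r1, s1, ⟨_, unit ρ⟩, ⟨_, unit ρ'⟩,
    ⟨_, _, _, (fr_iff τ).1 t1⟩, fun P _ τ' h hP => not_proj π (fun α b => ?_) ?_
      (((fr_iff h.1.1.toContinuousLinearMap).2 h).proj t1 hP)⟩
  · refine (t2 _ _).trans ((mul_le_mul (r2 _) (s2 _) (apply_nonneg _ _) ?_).trans ?_) <;>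
      norm_num [bnd]
  have hs := pull_solid ((mk_hom JJ).comp TT_hom)
  have ab : ∀ (x x' : C((ℕ → ℕ) → unitInterval, ℝ)) (y y' : C(ℕ → unitInterval, ℝ)),
      |x| ≤ |x'| → |y| ≤ |y'| → |x.prodMul y| ≤ |x'.prodMul y'| := fun x x' y y' hx hy q => by
    show |x q.1 * y q.2| ≤ |x' q.1 * y' q.2|
    rw [abs_mul, abs_mul]
    exact mul_le_mul (hx q.1) (hy q.2) (abs_nonneg _) (abs_nonneg _)
  refine t3 (pull ((Quo.mk JJ).comp TT)) hs fun x y => ?_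
  refine s3 ((pull ((Quo.mk JJ).comp TT)).comp (ContinuousMap.prodMul x))
    (fun a b h => hs _ _ (ab _ _ _ _ le_rfl h)) _ (apply_nonneg _ _) (fun j => ?_) y
  rw [mul_comm]
  refine r3 ((pull ((Quo.mk JJ).comp TT)).comp (ContinuousMap.prodMul.flip (gen _ j)))
    (fun a b h => hs _ _ (ab _ _ _ _ h le_rfl)) _ (by linarith [bnd_pos j]) (fun i => ?_) x
  rw [mul_comm]
  exact TT_gen i j

end Pool.Agent.Results.MP_11a8c1_an.No
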